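import Pool.Agent.Helper97.Dyn.Final

/-!
# Fast-update limit of the critical rate of the contact process on dynamical percolation

The definitions `gapLaw`, `ringSet`, `Clock`, `Noise`, `noiseLaw`, `OpenAt`, `Reach`, `Survives`,
`healTimes`, `EdgeOpen`, `dynTimes`, `statTimes`, `dynTheta`, `statTheta`, `dynCrit`, `statCrit`,
`distWeight`, `lambdaC`, `lambdaInf` are in `Pool.Agent.Helper97.Dyn.Defs`.

Part of the proof (the comparison of the dynamic process in finite volume with a static process of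
smaller recovery rate) is in `Pool.Agent.Helper92.FastUpdate`.
-/

open MeasureTheory Filter
open scoped ENNReal NNReal Topology

namespace Pool.Agent.Results.MP_7adf6c_pr.FastUpdateLimit

open Pool.Agent.Helper97.Dyn

/-- Let `G` be a connected vertex-transitive graph of bounded degree, `p` and `v` functions of the
graph distance `k ≥ 1` with `0 ≤ p k ≤ 1`, `v k > 0` and `∑_{y ≠ x} 1 / v (d x y) < ∞`, and
`0 < q ≤ 1`. Then `λ_c(γ, q) → λ_c^∞(q)` as `γ → ∞`; more precisely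
`|1 / λ_c(γ, q) - 1 / λ_c^∞(q)| ≤ S / γ` with `S = ∑_{y ≠ x} 1 / v (d x y)`, as soon as
`γ v (d x y) ≥ 2` for all `y ≠ x`. (The survival events are measurable up to null sets.) -/
theorem result {V : Type*} (G : SimpleGraph V) (hconn : G.Connected)
    (htrans : ∀ x y : V, ∃ φ : G ≃g G, φ x = y)
    (hdeg : ∃ D : ℕ, ∀ x, (G.neighborSet x).encard ≤ D)
    (p v : ℕ → ℝ) (hp : ∀ k, k ≠ 0 → p k ∈ Set.Icc (0 : ℝ) 1) (hv : ∀ k, k ≠ 0 → 0 < v k)
    (hA : ∀ x : V, Summable fun y : {y : V // y ≠ x} => (v (G.dist x y))⁻¹)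
    (q : ℝ) (hq : q ∈ Set.Ioc (0 : ℝ) 1) (x : V) :
    Tendsto (fun γ : ℝ => lambdaC G p v x γ q) atTop (𝓝 (lambdaInf G p x q)) ∧
    (∀ γ : ℝ, 0 < γ → (∀ y, y ≠ x → 2 ≤ γ * v (G.dist x y)) →
      (lambdaC G p v x γ q)⁻¹ ≤ (lambdaInf G p x q)⁻¹ +
        ENNReal.ofReal ((∑' y : {y : V // y ≠ x}, (v (G.dist x y))⁻¹) / γ) ∧
      (lambdaInf G p x q)⁻¹ ≤ (lambdaC G p v x γ q)⁻¹ +
        ENNReal.ofReal ((∑' y : {y : V // y ≠ x}, (v (G.dist x y))⁻¹) / γ)) ∧
    (∀ γ : ℝ, 0 < γ → ∀ l : ℝ≥0,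
      NullMeasurableSet {ω | Survives (dynTimes l (distWeight G fun k => q * p k)
        (distWeight G fun k => γ * v k) ω) (healTimes ω) x} (noiseLaw V) ∧
      NullMeasurableSet {ω | Survives (statTimes l (distWeight G fun k => q * p k) ω)
        (healTimes ω) x} (noiseLaw V)) := by
  obtain ⟨D, hD⟩ := hdeg
  have hf : ∀ x, (G.neighborSet x).Finite := fun x => Set.finite_of_encard_le_coe (hD x)
  exact ⟨final_tendsto hconn htrans hf hp hv hA hq x,
    fun γ hγ h2 => final_bounds hconn htrans hf hp hv hA hq x hγ h2,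
    fun γ hγ l => final_null hconn hf hp hv hq hγ l x⟩

end Pool.Agent.Results.MP_7adf6c_pr.FastUpdateLimit
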